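import Pool.Agent.W528.Odd.Stms

/-!
# OT-CART: a stable Lie algebra of operators of trace zero with zero trace form is zero
-/

set_option autoImplicit false

namespace Pool.Agent.W363.OT.Cart

open Module Pool.Agent.W528.Odd LieModule

attribute [local instance 100] LieRing.ofAssociativeRing

section gen
variable {K : Type} [Field K] {V : Type} [AddCommGroup V] [Module K V] {G : Type} [Group G]
variable (r : Representation K G V)

lemma inv_mul' (g : G) : r g⁻¹ * r g = 1 := by rw [← map_mul, inv_mul_cancel, map_one]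

lemma mul_inv' (g : G) : r g * r g⁻¹ = 1 := by rw [← map_mul, mul_inv_cancel, map_one]

/-- conjugation moved across `r g` -/
lemma conj_apply (g : G) (x : Module.End K V) (v : V) :
    x (r g v) = r g ((r g⁻¹ * x * r (g⁻¹)⁻¹) v) := by
  have h : x * r g = r g * (r g⁻¹ * x * r (g⁻¹)⁻¹) := by
    rw [inv_inv, ← mul_assoc, ← mul_assoc, mul_inv', one_mul]
  have := congrArg (fun f : Module.End K V => f v) h
  simpa using this

/-- the conjugation action on functions on the Lie algebra -/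
@[instance_reducible]
def act (𝔞 : Submodule K (Module.End K V)) (hconj : ∀ g, ∀ x ∈ 𝔞, r g * x * r g⁻¹ ∈ 𝔞) :
    MulAction G (𝔞 → K) where
  smul g χ := fun x => χ ⟨r g⁻¹ * x.1 * r (g⁻¹)⁻¹, hconj g⁻¹ x.1 x.2⟩
  one_smul χ := by
    funext x
    change χ ⟨r 1⁻¹ * x.1 * r (1⁻¹)⁻¹, _⟩ = χ x
    congr 1
    apply Subtype.ext
    simp
  mul_smul g h χ := by
    funext x
    change χ ⟨r (g * h)⁻¹ * x.1 * r ((g * h)⁻¹)⁻¹, _⟩ =
      χ ⟨r h⁻¹ * (r g⁻¹ * x.1 * r (g⁻¹)⁻¹) * r (h⁻¹)⁻¹, _⟩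
    congr 1
    apply Subtype.ext
    simp only [mul_inv_rev, map_mul, inv_inv, mul_assoc]

end gen

theorem main : Pool.Agent.W528.Odd.Cart := by
  intro K _ _ _ V _ _ _ G _ r hirr 𝔞 hbr hconj htr hform
  rcases subsingleton_or_nontrivial V with hV | hV
  · rw [Submodule.eq_bot_iff]
    intro x _
    ext v
    exact Subsingleton.elim _ _
  let L : LieSubalgebra K (Module.End K V) := { 𝔞 with lie_mem' := fun {x y} hx hy => hbr x hx y hy }
  have htf : LieModule.traceForm K L V = 0 := by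
    ext x y
    rw [traceForm_apply_apply]
    exact hform x.1 x.2 y.1 y.2
  have hnil := LieModule.isNilpotent_derivedSeries_of_traceForm_eq_zero htf
  have hnt : Nontrivial (maxTrivSubmodule K (LieAlgebra.derivedSeries K L 1) V) :=
    nontrivial_max_triv_of_isNilpotent K (LieAlgebra.derivedSeries K L 1) V
  -- the algebra is commutative
  let V0 : Submodule K V :=
    { carrier := {v | ∀ x ∈ 𝔞, ∀ y ∈ 𝔞, (x * y - y * x) v = 0}
      zero_mem' := fun x _ y _ => map_zero _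
      add_mem' := by
        intro a b ha hb x hx y hy
        rw [map_add, ha x hx y hy, hb x hx y hy, add_zero]
      smul_mem' := by
        intro c a ha x hx y hy
        rw [map_smul, ha x hx y hy, smul_zero] }
  have hV0 : V0 = ⊤ := by
    have h1 : V0 ≠ ⊥ := by
      obtain ⟨⟨v, hv⟩, hv0⟩ := exists_ne (0 : maxTrivSubmodule K (LieAlgebra.derivedSeries K L 1) V)
      have hvne : v ≠ 0 := fun h => hv0 (Subtype.ext h)
      refine (Submodule.ne_bot_iff V0).2 ⟨v, ?_, hvne⟩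
      intro x hx y hy
      rw [mem_maxTrivSubmodule] at hv
      have hmem : ⁅(⟨x, hx⟩ : L), (⟨y, hy⟩ : L)⁆ ∈ LieAlgebra.derivedSeries K L 1 := by
        rw [LieAlgebra.derivedSeries_def, LieAlgebra.derivedSeriesOfIdeal_succ,
          LieAlgebra.derivedSeriesOfIdeal_zero]
        exact LieSubmodule.lie_mem_lie (LieSubmodule.mem_top _) (LieSubmodule.mem_top _)
      exact hv ⟨_, hmem⟩
    refine (hirr ⊤ inferInstance V0 ?_).resolve_left h1
    intro g _ u hu x hx y hy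
    have h2 := hu (r g⁻¹ * x * r (g⁻¹)⁻¹) (hconj g⁻¹ x hx) (r g⁻¹ * y * r (g⁻¹)⁻¹) (hconj g⁻¹ y hy)
    rw [conj_apply r g]
    have h3 : r g⁻¹ * (x * y - y * x) * r (g⁻¹)⁻¹ =
        (r g⁻¹ * x * r (g⁻¹)⁻¹) * (r g⁻¹ * y * r (g⁻¹)⁻¹) -
        (r g⁻¹ * y * r (g⁻¹)⁻¹) * (r g⁻¹ * x * r (g⁻¹)⁻¹) := by
      have h4 : r (g⁻¹)⁻¹ * r g⁻¹ = 1 := by rw [inv_inv]; exact mul_inv' r g
      have e : ∀ a b : Module.End K V, (r g⁻¹ * a * r (g⁻¹)⁻¹) * (r g⁻¹ * b * r (g⁻¹)⁻¹) =
          r g⁻¹ * (a * b) * r (g⁻¹)⁻¹ := by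
        intro a b
        calc (r g⁻¹ * a * r (g⁻¹)⁻¹) * (r g⁻¹ * b * r (g⁻¹)⁻¹)
            = r g⁻¹ * a * (r (g⁻¹)⁻¹ * r g⁻¹) * b * r (g⁻¹)⁻¹ := by simp only [mul_assoc]
          _ = r g⁻¹ * (a * b) * r (g⁻¹)⁻¹ := by rw [h4, mul_one]; simp only [mul_assoc]
      rw [e, e, mul_sub, sub_mul]
    rw [h3, h2, map_zero]
  have hcomm : ∀ x ∈ 𝔞, ∀ y ∈ 𝔞, x * y - y * x = 0 := by
    intro x hx y hy
    ext v
    have hv : v ∈ V0 := hV0 ▸ Submodule.mem_top
    exact hv x hx y hy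
  have habel : IsLieAbelian L := ⟨fun x y => Subtype.ext (hcomm x.1 x.2 y.1 y.2)⟩
  obtain ⟨χ, hχ⟩ := LieModule.exists_nontrivial_weightSpace_of_isSolvable K L V
  -- weight spaces
  let W : (𝔞 → K) → Submodule K V := fun χ =>
    { carrier := {v | ∀ x : 𝔞, x.1 v = χ x • v}
      zero_mem' := fun x => by rw [map_zero, smul_zero]
      add_mem' := by
        intro a b ha hb x
        rw [map_add, ha x, hb x, smul_add]
      smul_mem' := by
        intro c a ha x
        rw [map_smul, ha x, smul_comm] }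
  letI := act r 𝔞 hconj
  have hsm : ∀ (g : G) (χ : 𝔞 → K) (x : 𝔞),
      (g • χ) x = χ ⟨r g⁻¹ * x.1 * r (g⁻¹)⁻¹, hconj g⁻¹ x.1 x.2⟩ := fun g χ x => rfl
  have hW : ∀ (g : G) (χ : 𝔞 → K) (v : V), v ∈ W χ → r g v ∈ W (g • χ) := by
    intro g χ v hv x
    rw [conj_apply r g, hsm]
    have := hv ⟨r g⁻¹ * x.1 * r (g⁻¹)⁻¹, hconj g⁻¹ x.1 x.2⟩
    simp only at this
    rw [this, map_smul]
  have hfin : {χ : 𝔞 → K | W χ ≠ ⊥}.Finite := by
    have h1 := LieModule.finite_genWeightSpace_ne_bot K L V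
    refine h1.subset ?_
    intro ψ hψ h2
    apply hψ
    rw [Submodule.eq_bot_iff]
    intro v hv
    have h3 : v ∈ weightSpace V (fun x : L => ψ x) := by
      rw [mem_weightSpace]
      intro x
      exact hv x
    have h4 := weightSpace_le_genWeightSpace V (fun x : L => ψ x) h3
    have h5 : genWeightSpace V (fun x : L => ψ x) = ⊥ := h2
    rw [h5] at h4
    simpa using h4
  set χ0 : 𝔞 → K := fun x => χ x with hχ0
  have hWχ : W χ0 ≠ ⊥ := by
    obtain ⟨⟨v, hv⟩, hv0⟩ := exists_ne (0 : weightSpace V χ)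
    have hvne : v ≠ 0 := fun h => hv0 (Subtype.ext h)
    refine (Submodule.ne_bot_iff _).2 ⟨v, ?_, hvne⟩
    rw [mem_weightSpace] at hv
    intro x
    exact hv x
  -- the stabiliser
  have horb : (MulAction.orbit G χ0).Finite := by
    refine hfin.subset ?_
    rintro _ ⟨g, rfl⟩
    obtain ⟨v, hv, hv0⟩ := (Submodule.ne_bot_iff _).1 hWχ
    refine (Submodule.ne_bot_iff _).2 ⟨r g v, hW g χ0 v hv, ?_⟩
    intro h
    apply hv0
    have : (r g⁻¹ * r g) v = 0 := by
      rw [Module.End.mul_apply, h, map_zero]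
    rwa [inv_mul', Module.End.one_apply] at this
  have hfi : (MulAction.stabilizer G χ0).FiniteIndex := by
    haveI : Finite (MulAction.orbit G χ0) := horb
    haveI : Finite (G ⧸ MulAction.stabilizer G χ0) :=
      Finite.of_equiv _ (MulAction.orbitEquivQuotientStabilizer G χ0)
    exact Subgroup.finiteIndex_of_finite_quotient
  have htop : W χ0 = ⊤ := by
    refine (hirr _ hfi (W χ0) ?_).resolve_left hWχ
    intro g hg u hu
    have h1 := hW g χ0 u hu
    rw [MulAction.mem_stabilizer_iff] at hg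
    rwa [hg] at h1
  rw [Submodule.eq_bot_iff]
  intro x hx
  have hx1 : x = χ0 ⟨x, hx⟩ • (1 : Module.End K V) := by
    ext v
    have hv : v ∈ W χ0 := htop ▸ Submodule.mem_top
    exact hv ⟨x, hx⟩
  have h2 := htr x hx
  rw [hx1, map_smul, LinearMap.trace_one, smul_eq_mul, mul_eq_zero] at h2
  have h3 : (finrank K V : K) ≠ 0 := by
    rw [Nat.cast_ne_zero]
    exact (finrank_pos (R := K) (M := V)).ne'
  rw [hx1, h2.resolve_right h3, zero_smul]

end Pool.Agent.W363.OT.Cart
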